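import Pool.Agent.Y979.AE.Final

/-!
# The Poisson-Voronoi graph of hyperbolic space of dimension at least three does not have positive
anchored expansion

For every dimension `k + 1 ≥ 3`, every intensity `lam > 0` and every Poisson point process `Q` on
hyperbolic space with intensity `lam` times the volume, almost surely the dual graph of the Voronoi
tessellation is infinite, connected and locally finite and its anchored expansion constant (edge
boundary over the sum of the degrees) is zero, from every root.
-/

set_option autoImplicit false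

open MeasureTheory Filter Topology

namespace Pool.Agent.Results.MP_2c2d1a_pr.AnchoredExpansionZero

open Pool.Agent.Y979.AE

/-- In every dimension `k + 1 ≥ 3` and for every intensity `lam > 0` the dual graph of the
Poisson-Voronoi tessellation of hyperbolic space is almost surely infinite, connected and locally
finite, and its anchored expansion constant is zero. -/
theorem result (k : ℕ) (hk : 2 ≤ k) {Ω : Type*} [MeasurableSpace Ω] (P : Measure Ω)
    [IsProbabilityMeasure P] (lam : ℝ) (hlam : 0 < lam) (Q : Ω → Set (HS k))
    (hQ : IsPoissonProcess P (hvol k) lam Q) :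
    ∀ᵐ ω ∂P, (Q ω).Infinite ∧ (voronoiGraph (Q ω)).Connected ∧
      (∀ x : Q ω, ((voronoiGraph (Q ω)).neighborSet x).Finite) ∧
      ∀ ρ : Q ω, (∀ m : ℕ, isoInf (voronoiGraph (Q ω)) ρ m = 0) ∧
        Tendsto (fun m : ℕ => isoInf (voronoiGraph (Q ω)) ρ m) atTop (𝓝 0) := by
  obtain ⟨n, rfl⟩ := Nat.exists_eq_add_of_le' hk
  filter_upwards [main_ae hQ hlam] with ω hω
  obtain ⟨h1, h2, h3, h4⟩ := hω
  refine ⟨h1, h2, h3, fun ρ => ⟨fun m => h4 ρ m, ?_⟩⟩
  have : (fun m : ℕ => isoInf (voronoiGraph (Q ω)) ρ m) = fun _ => 0 := by
    funext m
    exact h4 ρ m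
  rw [this]
  exact tendsto_const_nhds

end Pool.Agent.Results.MP_2c2d1a_pr.AnchoredExpansionZero
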